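import Pool.Agent.Helper79_WRA.StmtB

/-!
WRA: module EQV.
-/

set_option autoImplicit false
set_option linter.unusedSectionVars false

open scoped BigOperators

noncomputable section

namespace Pool.Agent.Helper79_WRA.H97

open Pool.Agent.Helper51_AWC

section

variable {G Ω L : Type} [Group G] [Group L] [MulAction L Ω]

omit [Group G] in
theorem tr_tr [Group G] (l m : L) (β : Ω → G → ℂ) : tr l (tr m β) = tr (l * m) β := by
  funext i
  simp only [tr, mul_inv_rev, mul_smul]

theorem tr_one (β : Ω → G → ℂ) : tr (1 : L) β = β := by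
  funext i
  simp only [tr, inv_one, one_smul]

theorem tr_irr {β : Ω → G → ℂ} (h : ∀ i, β i ∈ Irr G) (l : L) : ∀ i, tr l β i ∈ Irr G :=
  fun i => h (l⁻¹ • i)

theorem colStab_triv (j : Ω) : colStab (triv G Ω) j = ⊤ := by
  rw [eq_top_iff]
  intro g _
  rw [mem_colStab]
  intro R hR
  have : R = fun _ => ⊥ := by simpa [triv] using hR
  rw [this]
  ext x
  rw [mem_conjS, Subgroup.mem_bot, Subgroup.mem_bot]
  constructor
  · intro h
    have : x = g * (g⁻¹ * x * g) * g⁻¹ := by group
    rw [this, h]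
    group
  · intro h
    rw [h]
    group

theorem isChars_triv {β : Ω → G → ℂ} (h : ∀ i, β i ∈ Irr G) : IsChars (triv G Ω) β := by
  intro j
  rw [colStab_triv]
  exact mem_IrrS_top.2 (h j)

theorem mem_stX_triv {β : Ω → G → ℂ} (h : ∀ i, β i ∈ Irr G) {t : Wreath G Ω L} :
    t ∈ stX L (triv G Ω) β ↔ ∀ j, β (t.s⁻¹ • j) = β j := by
  rw [mem_stX]
  constructor
  · rintro ⟨_, h2⟩ j
    funext y
    rw [← h2 j y, irr_conj (h j)]
  · intro h2
    refine ⟨?_, ?_⟩
    · intro R hR j
      have : R = fun _ => ⊥ := by simpa [triv] using hR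
      rw [this]
      ext x
      rw [mem_conjS, Subgroup.mem_bot, Subgroup.mem_bot]
      constructor
      · intro h
        have : x = t.f j * ((t.f j)⁻¹ * x * t.f j) * (t.f j)⁻¹ := by group
        rw [this, h]
        group
      · intro h
        rw [h]
        group
    · intro j y
      rw [irr_conj (h j), h2 j]

theorem mem_LL {β : Ω → G → ℂ} (h : ∀ i, β i ∈ Irr G) {k : L} :
    k ∈ LL L β ↔ ∀ j, β (k⁻¹ • j) = β j := by
  constructor
  · rintro ⟨t, ht, rfl⟩
    exact (mem_stX_triv h).1 ht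
  · intro h2
    exact ⟨⟨fun _ => 1, k⟩, (mem_stX_triv h).2 h2, rfl⟩

theorem mem_LL_tr {β : Ω → G → ℂ} (h : ∀ i, β i ∈ Irr G) {k l : L} :
    k ∈ LL L (tr l β) ↔ l⁻¹ * k * l ∈ LL L β := by
  rw [mem_LL h, mem_LL (tr_irr h l)]
  simp only [tr]
  constructor
  · intro h2 j
    have := h2 (l • j)
    simp only [← mul_smul] at this
    rw [inv_mul_cancel, one_smul] at this
    rw [← this]
    congr 2
    group
  · intro h2 j
    have := h2 (l⁻¹ • j)
    simp only [← mul_smul] at this
    rw [← mul_smul, ← this]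
    congr 2
    group

end

section

variable {G Ω L : Type} [Group G] [Finite G] [Fintype Ω] [Group L] [Finite L] [MulAction L Ω]

theorem isExt (hExt : ExtStmt) {β : Ω → G → ℂ} (h : ∀ i, β i ∈ Irr G) :
    IsExt L (triv G Ω) β (ex L β) := by
  have h1 := hExt G Ω L (triv G Ω) β (isChars_triv h)
  unfold ex ext
  rw [dif_pos h1]
  exact h1.choose_spec

theorem exists_base (h : L) : ∃ B : Finset Ω, IsBase h B := by
  classical
  let q : Ω → MulAction.orbitRel.Quotient (Subgroup.zpowers h) Ω := fun i => Quotient.mk _ i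
  refine ⟨Finset.univ.image fun i => Quotient.out (q i), fun j => ?_⟩
  refine ⟨Quotient.out (q j), ⟨Finset.mem_image_of_mem _ (Finset.mem_univ _), ?_⟩, ?_⟩
  · exact Quotient.mk_out (s := MulAction.orbitRel (Subgroup.zpowers h) Ω) j
  · rintro b ⟨hb, hb2⟩
    obtain ⟨i, _, rfl⟩ := Finset.mem_image.1 hb
    congr 1
    have h1 : (MulAction.orbitRel (Subgroup.zpowers h) Ω) (Quotient.out (q i)) j := hb2
    have h2 : Quotient.mk (MulAction.orbitRel (Subgroup.zpowers h) Ω) (Quotient.out (q i)) =
      Quotient.mk _ j := Quotient.sound h1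
    rw [Quotient.out_eq] at h2
    exact h2

theorem isBase_conj {h : L} {B : Finset Ω} (hB : IsBase h B) (l : L) [DecidableEq Ω] :
    IsBase (l * h * l⁻¹) (B.image (fun b => l • b)) := by
  have key : ∀ b j : Ω, l • b ∈ MulAction.orbit (Subgroup.zpowers (l * h * l⁻¹)) j ↔
      b ∈ MulAction.orbit (Subgroup.zpowers h) (l⁻¹ • j) := by
    intro b j
    constructor
    · rintro ⟨⟨x, hx⟩, hxj⟩
      obtain ⟨n, rfl⟩ := Subgroup.mem_zpowers_iff.1 hx
      refine ⟨⟨h ^ n, Subgroup.mem_zpowers_iff.2 ⟨n, rfl⟩⟩, ?_⟩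
      have h1 : ((l * h * l⁻¹) ^ n) • j = l • b := hxj
      rw [conj_zpow] at h1
      show h ^ n • l⁻¹ • j = b
      have h2 := congrArg (fun x => l⁻¹ • x) h1
      simp only [mul_smul, inv_smul_smul] at h2
      exact h2
    · rintro ⟨⟨x, hx⟩, hxj⟩
      obtain ⟨n, rfl⟩ := Subgroup.mem_zpowers_iff.1 hx
      refine ⟨⟨(l * h * l⁻¹) ^ n, Subgroup.mem_zpowers_iff.2 ⟨n, rfl⟩⟩, ?_⟩
      have h1 : h ^ n • l⁻¹ • j = b := hxj
      show ((l * h * l⁻¹) ^ n) • j = l • b
      rw [conj_zpow, mul_smul, mul_smul, h1]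
  intro j
  obtain ⟨b, ⟨hb1, hb2⟩, hb3⟩ := hB (l⁻¹ • j)
  refine ⟨l • b, ⟨Finset.mem_image_of_mem _ hb1, (key b j).2 hb2⟩, ?_⟩
  rintro c ⟨hc1, hc2⟩
  obtain ⟨b', hb', rfl⟩ := Finset.mem_image.1 hc1
  rw [hb3 b' ⟨hb', (key b' j).1 hc2⟩]

omit [Group G] [Finite G] [Finite L] [Fintype Ω] in
theorem minimalPeriod_conj (h l : L) (b : Ω) :
    Function.minimalPeriod (fun i : Ω => (l * h * l⁻¹) • i) (l • b) =
      Function.minimalPeriod (fun i : Ω => h • i) b := by
  have h1 : Function.Semiconj (fun i : Ω => l • i) (fun i : Ω => h • i)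
      (fun i : Ω => (l * h * l⁻¹) • i) := fun i => by
    simp only [mul_smul, inv_smul_smul]
  have h2 : Function.Semiconj (fun i : Ω => l⁻¹ • i) (fun i : Ω => (l * h * l⁻¹) • i)
      (fun i : Ω => h • i) := fun i => by
    simp only [mul_smul, inv_smul_smul]
  apply Nat.dvd_antisymm
  · exact ((Function.isPeriodicPt_minimalPeriod _ b).map h1).minimalPeriod_dvd
  · have := ((Function.isPeriodicPt_minimalPeriod _ (l • b)).map h2).minimalPeriod_dvd
    rwa [inv_smul_smul] at this

theorem pow_s (x : Wreath G Ω L) (n : ℕ) : (x ^ n).s = x.s ^ n :=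
  map_pow (Wreath.proj : Wreath G Ω L →* L) x n

theorem ex_conj (hExt : ExtStmt) {β : Ω → G → ℂ} (h : ∀ i, β i ∈ Irr G) (x y : Wreath G Ω L) :
    ex L (tr y.s β) (y * x * y⁻¹) = ex L β x := by
  classical
  have hE := isExt (L := L) hExt h
  have hE' := isExt (L := L) hExt (tr_irr h y.s)
  by_cases hx : x ∈ stX L (triv G Ω) β
  · have hx' : y * x * y⁻¹ ∈ stX L (triv G Ω) (tr y.s β) := by
      rw [mem_stX_triv (tr_irr h y.s)]
      intro j
      have h1 := (mem_stX_triv h).1 hx (y.s⁻¹ • j)
      simp only [tr, Wreath.conj_s]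
      rw [← h1]
      simp only [← mul_smul]
      congr 2
      group
    obtain ⟨B, hB⟩ := exists_base (Ω := Ω) x.s
    have hB' := isBase_conj hB y.s
    rw [hE.value x hx B hB, hE'.value _ hx' _ hB', Finset.prod_image
      (fun a _ b _ hab => smul_left_cancel _ hab)]
    refine Finset.prod_congr rfl fun b _ => ?_
    have e1 : tr y.s β (y.s • b) = β b := by
      show β (y.s⁻¹ • y.s • b) = β b
      rw [inv_smul_smul]
    have e2 : Function.minimalPeriod (fun i : Ω => (y * x * y⁻¹).s • i) (y.s • b) =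
        Function.minimalPeriod (fun i : Ω => x.s • i) b := minimalPeriod_conj x.s y.s b
    rw [e1, e2]
    set n := Function.minimalPeriod (fun i : Ω => x.s • i) b with hn
    have e3 : (y * x * y⁻¹) ^ n = y * x ^ n * y⁻¹ := conj_pow
    have e4 : x.s ^ n • b = b := by
      have := Function.isPeriodicPt_minimalPeriod (fun i : Ω => x.s • i) b
      rw [← hn] at this
      have h3 : (fun i : Ω => x.s • i)^[n] b = x.s ^ n • b := by
        rw [smul_iterate]
      rw [← h3]
      exact this
    rw [e3, Wreath.conj_f, inv_smul_smul, pow_s]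
    have e5 : (y.s * (x.s ^ n)⁻¹ * y.s⁻¹) • y.s • b = y.s • b := by
      rw [mul_smul, inv_smul_smul, mul_smul]
      congr 1
      rw [inv_smul_eq_iff]
      exact e4.symm
    rw [e5, irr_conj (h b)]
  · have hx' : y * x * y⁻¹ ∉ stX L (triv G Ω) (tr y.s β) := by
      intro h1
      apply hx
      rw [mem_stX_triv h]
      rw [mem_stX_triv (tr_irr h y.s)] at h1
      intro j
      have h2 := h1 (y.s • j)
      simp only [tr, Wreath.conj_s] at h2
      rw [inv_smul_smul] at h2
      rw [← h2]
      simp only [← mul_smul]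
      congr 2
      group
    rw [hE.mem.1 x hx, hE'.mem.1 _ hx']

/-- EQV. -/
theorem eqv (hExt : ExtStmt) : EqvStmt := by
  intro G Ω L _ _ _ _ _ _ β hβ
  refine ⟨fun x y => ex_conj hExt hβ x y, ?_, ?_⟩
  · intro h₀ hh₀
    refine ⟨?_, ?_, ?_⟩
    · intro x y
      unfold testT
      symm
      apply finsum_mem_eq_of_bijOn (tr y.s)
      · refine ⟨?_, ?_, ?_⟩
        · rintro β' ⟨l, rfl, hl⟩
          refine ⟨y.s * l, (tr_tr _ _ _), ?_⟩
          rw [Wreath.conj_s, hl]
          group
        · intro a _ b _ hab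
          have := congrArg (tr y.s⁻¹) hab
          rwa [tr_tr, tr_tr, inv_mul_cancel, tr_one, tr_one] at this
        · rintro β' ⟨l, rfl, hl⟩
          refine ⟨tr (y.s⁻¹ * l) β, ⟨y.s⁻¹ * l, rfl, ?_⟩, ?_⟩
          · rw [Wreath.conj_s] at hl
            have : x.s = y.s⁻¹ * (y.s * x.s * y.s⁻¹) * y.s := by group
            rw [this, hl]
            group
          · rw [tr_tr]
            congr 1
            group
      · rintro β' ⟨l, rfl, hl⟩
        have e : (y * x * y⁻¹)⁻¹ = y * x⁻¹ * y⁻¹ := by group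
        rw [e, ex_conj hExt (tr_irr hβ l)]
    · intro x
      unfold testT
      refine finsum_induction _ isIntegral_zero (fun a b ha hb => ha.add hb) fun β' => ?_
      refine finsum_induction _ isIntegral_zero (fun a b ha hb => ha.add hb) fun hβ' => ?_
      obtain ⟨l, rfl, hl⟩ := hβ'
      exact IrrS_integral (isExt hExt (tr_irr hβ l)).mem _
    · intro l
      funext x
      unfold testT
      refine finsum_congr fun β' => ?_
      have e : (∃ l' : L, β' = tr l' (tr l β) ∧ x.s = l' * (l * h₀ * l⁻¹) * l'⁻¹) ↔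
          ∃ l' : L, β' = tr l' β ∧ x.s = l' * h₀ * l'⁻¹ := by
        constructor
        · rintro ⟨l', rfl, h1⟩
          refine ⟨l' * l, tr_tr _ _ _, ?_⟩
          rw [h1]
          group
        · rintro ⟨l', rfl, h1⟩
          refine ⟨l' * l⁻¹, ?_, ?_⟩
          · rw [tr_tr]
            congr 1
            group
          · rw [h1]
            group
      exact finsum_congr_Prop (propext e) fun _ => rfl
  · intro lam hlam l
    have hmem : (fun x => lam (l⁻¹ * x * l)) ∈ IrrS (LL L (tr l β)) := by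
      refine ⟨?_, ?_⟩
      · intro g hg
        apply hlam.1
        rwa [← mem_LL_tr hβ]
      · let e : LL L (tr l β) ≃* LL L β :=
          { toFun := fun x => ⟨l⁻¹ * x * l, (mem_LL_tr hβ).1 x.2⟩
            invFun := fun x => ⟨l * x * l⁻¹, (mem_LL_tr hβ).2 (by
              have : l⁻¹ * (l * (x : L) * l⁻¹) * l = x := by group
              rw [this]
              exact x.2)⟩
            left_inv := fun x => Subtype.ext (by
              show l * (l⁻¹ * (x : L) * l) * l⁻¹ = x
              group)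
            right_inv := fun x => Subtype.ext (by
              show l⁻¹ * (l * (x : L) * l⁻¹) * l = x
              group)
            map_mul' := fun x y => Subtype.ext (by
              show l⁻¹ * ((x : L) * y) * l = (l⁻¹ * x * l) * (l⁻¹ * y * l)
              group) }
        exact irr_comp_equiv e hlam.2
    refine ⟨hmem, fun Φ hΦ => ?_⟩
    have h1 : et (tr l β) (fun x => lam (l⁻¹ * x * l)) (1 : Wreath G Ω L) =
        et β lam (1 : Wreath G Ω L) := by
      have := ex_conj hExt hβ (1 : Wreath G Ω L) (Wreath.top l)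
      rw [mul_one, mul_inv_cancel] at this
      show ex L (tr l β) 1 * lam (l⁻¹ * (1 : Wreath G Ω L).s * l) = ex L β 1 * lam _
      rw [show ex L (tr l β) (1 : Wreath G Ω L) = ex L β 1 from this, Wreath.one_s, mul_one,
        inv_mul_cancel]
    unfold val
    rw [h1]
    congr 1
    rw [← finsum_comp_equiv (MulAut.conj (Wreath.top l : Wreath G Ω L)).toEquiv]
    refine finsum_congr fun t => ?_
    have e1 : (MulAut.conj (Wreath.top l : Wreath G Ω L)).toEquiv t =
        Wreath.top l * t * (Wreath.top l)⁻¹ := rfl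
    rw [e1, hΦ]
    congr 1
    show ex L (tr l β) (Wreath.top l * t * (Wreath.top l)⁻¹) *
      lam (l⁻¹ * (Wreath.top l * t * (Wreath.top l)⁻¹).s * l) = ex L β t * lam t.s
    have e2 := ex_conj hExt hβ t (Wreath.top l)
    rw [show ex L (tr l β) (Wreath.top l * t * (Wreath.top l)⁻¹) = ex L β t from e2,
      Wreath.conj_s, Wreath.top_s]
    congr 2
    group

end

end Pool.Agent.Helper79_WRA.H97
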